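import Pool.Agent.GSK2.Tab1

set_option autoImplicit false
set_option maxRecDepth 100000

noncomputable section

namespace Pool.Agent.GSK2

open Pool.Agent.GSW

theorem t0 : fchk1 (1) 1 (2 ^ 73) (2 ^ 42975) 28 ⟨[⟨J1, rowsOf NN 0, [([1], [])]⟩], G0, XN⟩ = true := by
  decide +kernel

theorem t1 : fchk1 (1) 1 (2 ^ 73) (2 ^ 44509) 29 ⟨[⟨J1, rowsOf NN 1, [([1], [])]⟩], G1, XN⟩ = true := by
  decide +kernel

theorem t2 : fchk1 (1) 1 (2 ^ 72) (2 ^ 43972) 29 ⟨[⟨J1, rowsOf NN 2, [([1], [])]⟩], G2, XN⟩ = true := by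
  decide +kernel

theorem t3 : fchk1 (1) 1 (2 ^ 73) (2 ^ 46626) 29 ⟨[⟨J1, rowsOf NN 3, [([1], [])]⟩], G3, XN⟩ = true := by
  decide +kernel

theorem t4 : fchk1 (1) 1 (2 ^ 73) (2 ^ 42978) 28 ⟨[⟨J1, rowsOf NN 4, [([1], [])]⟩], G4, XN⟩ = true := by
  decide +kernel

theorem t5 : fchk1 (1) 1 (2 ^ 73) (2 ^ 43048) 28 ⟨[⟨J1, rowsOf NN 5, [([1], [])]⟩], G5, XN⟩ = true := by
  decide +kernel

theorem t6 : fchk1 (1) 1 (2 ^ 76) (2 ^ 44744) 28 ⟨[⟨J1, rowsOf NN 6, [([1], [])]⟩], G6, XN⟩ = true := by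
  decide +kernel

theorem t7 : fchk1 (1) 1 (2 ^ 76) (2 ^ 44818) 28 ⟨[⟨J1, rowsOf NN 7, [([1], [])]⟩], G7, XN⟩ = true := by
  decide +kernel

theorem t8 : fchk1 (1) 1 (2 ^ 82) (2 ^ 52537) 29 ⟨[⟨J1, rowsOf NN 8, [([1], [])]⟩, ⟨V, A, h8⟩], G8, XN⟩ = true := by
  decide +kernel


end Pool.Agent.GSK2
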