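import Pool.Agent.GSX.Cub

set_option autoImplicit false
set_option maxRecDepth 100000

noncomputable section

namespace Pool.Agent.GSK2

/-- the cubic -/
def X : GSX.Cub ℤ where
  a := ![![8, 4, 2], ![8, 1, 0], ![-2, 4, 2], ![4, 1, 0], ![-4, -1, 0], ![-8, 8, 4]]
  b := ![![10, 6, 4], ![6, 5, 4], ![-18, -14, -10], ![2, 1, 0], ![0, 1, 2], ![16, 16, 16]]


end Pool.Agent.GSK2
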