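import Pool.Agent.GSW.DTree

set_option autoImplicit false
set_option maxRecDepth 100000

noncomputable section

namespace Pool.Agent.GSK2

open Pool.Agent.GSW

/-- the datum -/
def D : GSR.Dat E where
  B := !![E.c 210, E.c (-21); E.c 903, E.c (-105)]
  N := !![E.c 0, E.c 0; E.c (-21), E.c (-42)]
  E := !![E.c (-27), E.c 2; E.c (-154), E.c 14]
  γ := ![E.c (-147), E.c (-210), E.c (-903), E.c 252]
  δ := ![E.c (-21), E.c (-50), E.c 149, E.c 4]
  t := !![E.c 0, E.c (-679), E.c (-1897), E.c 0, E.c 2520, E.c (-373); E.c 0, E.c 0, E.c (-16079),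
    E.c 0, E.c 19467, E.c (-3681); E.c 0, E.c 0, E.c 0, E.c 5831, E.c (-17640), E.c 3850; E.c 0,
    E.c 0, E.c 0, E.c 0, E.c 6615, E.c (-1043); E.c 0, E.c 0, E.c 0, E.c 0, E.c 0, E.c 0; E.c 0,
    E.c 0, E.c 0, E.c 0, E.c 0, E.c 0]

/-- the datum with its parameters -/
def T : DT where
  D := D
  n := ![E.c (-147) + E.c (-588) * E.t + E.c 588 * E.s, E.c (-3) + E.c (-11) * E.t + E.c 12 * E.s]
  dl := E.c (-21) + E.c (-42) * E.t + E.c 63 * E.s


end Pool.Agent.GSK2
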