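import Pool.Agent.GSW.Fin
import Pool.Agent.GSK2.Tab2

set_option autoImplicit false
set_option maxRecDepth 100000

noncomputable section

namespace Pool.Agent.GSK2

open Pool.Agent Pool.Agent.GSW GSX Pool.Agent.GSR

instance fp : Fact (Nat.Prime 1000003) := ⟨by norm_num⟩

theorem hu : rtChk 1000003 1 (1) = true := by decide +kernel

/-- residues of the datum -/
def Dn1 : Dat ℕ := ⟨!![210, 999982; 903, 999898], !![0, 0; 999982, 999961], !![999976, 2; 999849,
  14], ![999856, 999793, 999100, 252], ![999982, 999953, 149, 4],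
    !![0, 999324, 998106, 0, 2520, 999630; 0, 0, 983924, 0, 19467, 996322; 0, 0, 0, 5831, 982363,
      3850; 0, 0, 0, 0, 6615, 998960; 0, 0, 0, 0, 0, 0; 0, 0, 0, 0, 0, 0]⟩

theorem hd1 : datChk 1000003 1 D Dn1 = true := by decide +kernel

/-- residues of the datum -/
def Dn2 : Dat ℕ := ⟨!![210, 999982; 903, 999898], !![0, 0; 999982, 999961], !![999976, 2; 999849,
  14], ![999856, 999793, 999100, 252], ![999982, 999953, 149, 4],
    !![0, 999324, 998106, 0, 2520, 999630; 0, 0, 983924, 0, 19467, 996322; 0, 0, 0, 5831, 982363,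
      3850; 0, 0, 0, 0, 6615, 998960; 0, 0, 0, 0, 0, 0; 0, 0, 0, 0, 0, 0]⟩

theorem hd2 : datChk 1000003 1000002 D Dn2 = true := by decide +kernel

/-- intermediate values -/
def g1 : GSE.GZ.GC (ZMod 1000003) where
  c := ![1, 0]
  s := 516202
  m := 1
  n := 2
  z := !![999975, 2; 999849, 13]
  w1 := !![557335, 839330; 489089, 215160]
  w2 := !![361524, 158909; 747105, 813067]
  h1 := ![![0, 0, 0, 0, 483171, 993829], ![512018, 996066, 0, 0, 948477, 0], ![0, 0, 512018,
    186787, 620522, 0]]
  h2 := ![![0, 0, 0, 0, 515572, 993829], ![978763, 449390, 0, 0, 401801, 0], ![0, 0, 978763,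
    693786, 404068, 0]]
  M := !![43174, 120570, 908668; 711934, 0, 271585; 708350, 343019, 0]
  N := !![0, 713590, 553343; 533656, 741765, 660447; 115559, 411239, 699459]
  y := ![687362, 8194, 454907]
  p := ![512018, 996066, 24033, 373574, 672686, 993829]
  q := ![959965, 290614, 804309, 161081, 695670, 239744]
  f1 := 437375
  f2 := 859503
  v := ![878799, 204298, 477327, 250681, 498382, 585801]
  e0 := ![800446, 243302, 479597, 296751, 622910, 0]
  e1 := ![57400, 430277, 55901, 434831, 0, 0]
  e2 := ![280719, 723908, 55932, 653601, 592488, 0]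
  mm := 627742
  p0 := 235386
  p1 := 22599
  M0 := 415292
  M1 := 362310

theorem ok1 : g1.Ok (Dn1.map (fun a : ℕ => (a : ZMod 1000003))) := by
  constructor <;> decide +kernel

/-- intermediate values -/
def g2 : GSE.GZ.GC (ZMod 1000003) where
  c := ![1, 0]
  s := 483801
  m := 1
  n := 2
  z := !![999975, 2; 999849, 13]
  w1 := !![361524, 158909; 747105, 813067]
  w2 := !![557335, 839330; 489089, 215160]
  h1 := ![![0, 0, 0, 0, 515572, 993829], ![978763, 449390, 0, 0, 401801, 0], ![0, 0, 978763,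
    693786, 404068, 0]]
  h2 := ![![0, 0, 0, 0, 483171, 993829], ![512018, 996066, 0, 0, 948477, 0], ![0, 0, 512018,
    186787, 620522, 0]]
  M := !![956829, 288069, 291653; 879433, 0, 656984; 91335, 728418, 0]
  N := !![0, 466347, 884444; 286413, 258238, 588764; 446660, 339556, 300544]
  y := ![685676, 986738, 115082]
  p := ![978763, 449390, 957523, 387569, 725506, 993829]
  q := ![101606, 224149, 878707, 757049, 953617, 649078]
  f1 := 612082
  f2 := 412977
  v := ![602144, 600925, 142559, 410045, 124942, 536025]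
  e0 := ![884465, 126480, 659664, 310974, 113485, 0]
  e1 := ![36157, 582556, 279959, 732912, 0, 0]
  e2 := ![118746, 723799, 411095, 757997, 93664, 0]
  mm := 334685
  p0 := 12993
  p1 := 276848
  M0 := 663156
  M1 := 942626

theorem ok2 : g2.Ok (Dn1.map (fun a : ℕ => (a : ZMod 1000003))) := by
  constructor <;> decide +kernel

/-- intermediate values -/
def g3 : GSE.GZ.GC (ZMod 1000003) where
  c := ![1, 0]
  s := 516202
  m := 1
  n := 2
  z := !![999975, 2; 999849, 13]
  w1 := !![557335, 839330; 489089, 215160]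
  w2 := !![361524, 158909; 747105, 813067]
  h1 := ![![0, 0, 0, 0, 483171, 993829], ![512018, 996066, 0, 0, 948477, 0], ![0, 0, 512018,
    186787, 620522, 0]]
  h2 := ![![0, 0, 0, 0, 515572, 993829], ![978763, 449390, 0, 0, 401801, 0], ![0, 0, 978763,
    693786, 404068, 0]]
  M := !![43174, 120570, 908668; 711934, 0, 271585; 708350, 343019, 0]
  N := !![0, 713590, 553343; 533656, 741765, 660447; 115559, 411239, 699459]
  y := ![687362, 8194, 454907]
  p := ![512018, 996066, 24033, 373574, 672686, 993829]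
  q := ![959965, 290614, 804309, 161081, 695670, 239744]
  f1 := 437375
  f2 := 859503
  v := ![878799, 204298, 477327, 250681, 498382, 585801]
  e0 := ![800446, 243302, 479597, 296751, 622910, 0]
  e1 := ![57400, 430277, 55901, 434831, 0, 0]
  e2 := ![280719, 723908, 55932, 653601, 592488, 0]
  mm := 627742
  p0 := 235386
  p1 := 22599
  M0 := 415292
  M1 := 362310

theorem ok3 : g3.Ok (Dn2.map (fun a : ℕ => (a : ZMod 1000003))) := by
  constructor <;> decide +kernel

/-- intermediate values -/
def g4 : GSE.GZ.GC (ZMod 1000003) where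
  c := ![1, 0]
  s := 483801
  m := 1
  n := 2
  z := !![999975, 2; 999849, 13]
  w1 := !![361524, 158909; 747105, 813067]
  w2 := !![557335, 839330; 489089, 215160]
  h1 := ![![0, 0, 0, 0, 515572, 993829], ![978763, 449390, 0, 0, 401801, 0], ![0, 0, 978763,
    693786, 404068, 0]]
  h2 := ![![0, 0, 0, 0, 483171, 993829], ![512018, 996066, 0, 0, 948477, 0], ![0, 0, 512018,
    186787, 620522, 0]]
  M := !![956829, 288069, 291653; 879433, 0, 656984; 91335, 728418, 0]
  N := !![0, 466347, 884444; 286413, 258238, 588764; 446660, 339556, 300544]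
  y := ![685676, 986738, 115082]
  p := ![978763, 449390, 957523, 387569, 725506, 993829]
  q := ![101606, 224149, 878707, 757049, 953617, 649078]
  f1 := 612082
  f2 := 412977
  v := ![602144, 600925, 142559, 410045, 124942, 536025]
  e0 := ![884465, 126480, 659664, 310974, 113485, 0]
  e1 := ![36157, 582556, 279959, 732912, 0, 0]
  e2 := ![118746, 723799, 411095, 757997, 93664, 0]
  mm := 334685
  p0 := 12993
  p1 := 276848
  M0 := 663156
  M1 := 942626

theorem ok4 : g4.Ok (Dn2.map (fun a : ℕ => (a : ZMod 1000003))) := by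
  constructor <;> decide +kernel

theorem red1 : Red 1000003 D 1 0 1 2 ((1 : ℕ) : ZMod 1000003) g1.s :=
  red_of hd1 ok1 ok2 (by decide +kernel) (by decide +kernel) (by decide +kernel)
    (by decide +kernel) (by decide +kernel) (by decide +kernel) (by decide +kernel)

theorem red2 : Red 1000003 D 1 0 1 2 ((1000003 - 1 : ℕ) : ZMod 1000003) g3.s :=
  red_of hd2 ok3 ok4 (by decide +kernel) (by decide +kernel) (by decide +kernel)
    (by decide +kernel) (by decide +kernel) (by decide +kernel) (by decide +kernel)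

theorem good {z : ℂ} (hz : z * z = ((1 : ℤ) : ℂ)) : GSN.Good (dr T.D z) :=
  goodW hu red1 red2 hz

theorem li {z : ℂ} (hz : z * z = ((1 : ℤ) : ℂ)) :
    LinearIndependent ℂ ![(dr T.D z).B, (dr T.D z).E, 1, (dr T.D z).N] := by
  refine li_of ?_
  have h := evC_ne (p := 1000003) (a := 0) (b := 0) hu (e := liE T.D) (by decide +kernel)
    (by decide +kernel) hz
  rwa [Nat.cast_zero] at h

/-- parameters of the test -/
def p3 : Pm := ⟨1, 1, 2 ^ 26, 10, 2 ^ 547⟩

/-- coefficients -/
def lS : List (E × ℕ × ℕ) := [(E.c 105, 1, 0), (E.c (-6174), 0, 1), (E.c 147, 0, 0)]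

/-- coefficients -/
def lT : List (E × ℕ × ℕ) := [(E.c 63, 1, 0), (E.c (-3087), 0, 1), (E.c 0, 0, 0)]

/-- coefficients -/
def lQ : List (E × ℕ × ℕ) := [(E.c 189, 1, 0), (E.c (-12348), 0, 1), (E.c 588, 0, 0)]

theorem dlne {z : ℂ} (hz : z * z = ((1 : ℤ) : ℂ)) : E.ev GSX.sK GSX.tK (zK z) T.dl ≠ 0 :=
  ev_ne (p := 1000003) (a := 0) (b := 0) hu (e := T.dl) (by decide +kernel)
    (by decide +kernel) hz

theorem top {z : ℂ} (hz : z * z = ((1 : ℤ) : ℂ)) :
    IntermediateField.adjoin ℂ (Set.range (par z T)) = ⊤ := by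
  refine top_of_hom (p := p3) hz (dl := T.dl) (n0 := T.n 0) (n1 := T.n 1) (m := 1) (S := lS)
    (T := lT) (Q := lQ) (by decide +kernel) (by decide +kernel) (by decide +kernel)
    (by decide +kernel) (by decide +kernel) ?_ (dlne hz) ?_ ?_
  · exact ev_ne (p := 1000003) (a := 0) (b := 0) hu (by decide +kernel)
      (by decide +kernel) hz
  · rw [par, mul_div_cancel₀ _ (dlne hz)]
  · rw [par, mul_div_cancel₀ _ (dlne hz)]

/-- the inverse -/
def L10 : Fin 8 → Fin 8 → ℕ := ![![0, 1000002, 71430, 750002, 437502, 660716, 26786, 464296],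
  ![44643, 0, 168049, 812343, 959346, 775672, 44643, 571433], ![0, 0, 0, 0, 0, 0, 570821, 0], ![0,
  0, 0, 0, 0, 748936, 0, 0], ![0, 0, 803650, 0, 0, 0, 0, 0], ![0, 0, 0, 196353, 803650, 0, 0, 0],
  ![0, 0, 0, 392706, 803650, 0, 0, 0], ![0, 0, 0, 0, 0, 0, 0, 803650]]

/-- the inverse -/
def L11 : Fin 8 → Fin 8 → ℕ := ![![0, 1000002, 71430, 750002, 437502, 660716, 26786, 464296],
  ![44643, 0, 168049, 812343, 959346, 775672, 44643, 571433], ![0, 0, 0, 0, 0, 0, 570821, 0], ![0,
  0, 0, 0, 0, 748936, 0, 0], ![0, 0, 803650, 0, 0, 0, 0, 0], ![0, 0, 0, 196353, 803650, 0, 0, 0],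
  ![0, 0, 0, 392706, 803650, 0, 0, 0], ![0, 0, 0, 0, 0, 0, 0, 803650]]

theorem iv10 : invChk 1000003 1 2 1 (jf J1) L10 = true := by decide +kernel

theorem iv11 : invChk 1000003 1 2 (1000003 - 1) (jf J1) L11 = true := by decide +kernel

theorem jd1 {z : ℂ} (hz : z * z = ((1 : ℤ) : ℂ)) :
    IsUnit (jm GSX.sK GSX.tK (zK z) (jf J1)).det := jdet hu iv10 iv11 hz

/-- the inverse -/
def L20 : Fin 8 → Fin 8 → ℕ := ![![481520, 783244, 515687, 499466, 852429, 838541, 64529, 198191],
  ![765357, 75513, 653871, 395886, 621389, 978973, 91519, 31200], ![998774, 941454, 576677,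
  650041, 912684, 894853, 848232, 253103], ![539314, 841972, 916982, 697609, 665708, 99707,
  139729, 466260], ![380835, 359450, 853517, 175736, 993666, 473009, 378436, 891597], ![234646,
  685431, 827410, 592162, 957012, 603640, 576835, 633415], ![544230, 38598, 969262, 855809,
  176475, 38580, 864524, 853816], ![442569, 597867, 651869, 5826, 485918, 539012, 625658, 655909]]

/-- the inverse -/
def L21 : Fin 8 → Fin 8 → ℕ := ![![481520, 783244, 515687, 499466, 852429, 838541, 64529, 198191],
  ![765357, 75513, 653871, 395886, 621389, 978973, 91519, 31200], ![998774, 941454, 576677,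
  650041, 912684, 894853, 848232, 253103], ![539314, 841972, 916982, 697609, 665708, 99707,
  139729, 466260], ![380835, 359450, 853517, 175736, 993666, 473009, 378436, 891597], ![234646,
  685431, 827410, 592162, 957012, 603640, 576835, 633415], ![544230, 38598, 969262, 855809,
  176475, 38580, 864524, 853816], ![442569, 597867, 651869, 5826, 485918, 539012, 625658, 655909]]

theorem iv20 : invChk 1000003 1 2 1 (dg8 T.tp.m (jf J2)) L20 = true := by decide +kernel

theorem iv21 : invChk 1000003 1 2 (1000003 - 1) (dg8 T.tp.m (jf J2)) L21 = true := by decide +kernel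

theorem jd2 {z : ℂ} (hz : z * z = ((1 : ℤ) : ℂ)) :
    IsUnit (jm GSX.sK GSX.tK (zK z) (dg8 T.tp.m (jf J2))).det := jdet hu iv20 iv21 hz


end Pool.Agent.GSK2
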