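import Pool.Agent.GSK2.Smooth
import Pool.Agent.GSK2.Hyp
import Pool.Agent.GSK2.Fin

set_option autoImplicit false
set_option maxRecDepth 100000

noncomputable section

namespace Pool.Agent.GSK2

open Pool.Agent Pool.Agent.GSW GSX

theorem rational : P28.Rational (X.map (Int.castRingHom ℂ)).F := by
  obtain ⟨z, hz⟩ := IsAlgClosed.exists_pow_nat_eq ((1 : ℤ) : ℂ) two_pos
  rw [pow_two] at hz
  exact rational_ofZ hz nondeg irr nsq (good hz) (li hz) (dlne hz) (top hz) (jd1 hz) (jd2 hz) cert

end Pool.Agent.GSK2
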