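import Pool.Agent.GSE.Fin
import Pool.Agent.GSK2.Cubic

set_option autoImplicit false
set_option maxRecDepth 100000

noncomputable section

namespace Pool.Agent.GSK2

open Pool.Agent GSX

/-- certificate for the chart 0 -/
def c0 : Fin 6 → GSE.NP 0 :=
  (![0, 0, 0, 0, 0, 1] : Fin 6 → ℤ)

/-- certificate for the chart 1 -/
def c1 : Fin 6 → GSE.NP 1 :=
  (![[3], [], [], [], [], []] : Fin 6 → List (ℤ))

/-- certificate for the chart 2 -/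
def c2 : Fin 6 → GSE.NP 2 :=
  (![[], [[3]], [[4]], [], [], []] : Fin 6 → List (List (ℤ)))

/-- certificate for the chart 3 -/
def c3 : Fin 6 → GSE.NP 3 :=
  (![[[[4,4]],[[1]]], [[[2],[3]],[[4]]], [], [[[1],[1]],[[3]]], [[[2]]],
    []] : Fin 6 → List (List (List (ℤ))))

/-- certificate for the chart 4 -/
def c4 : Fin 6 → GSE.NP 4 :=
  (![[[[[3,1,2],[4,2]],[[0,3],[4]],[[2]]],[[[4,4],[4]],[[3]]]], [[[[2],[1,2],[4]],[[4,1],[2]],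
    [[2]]],[[[1,1],[1]],[[2]]]], [[[[2],[3,4]],[[3,2],[1]],[[3]]],[[[0,1],[2]]]], [[[[2,1],[2,3],
    [1]],[[1],[1]],[[1]]],[[[1,4]]]], [[[[4,3],[0,4],[2]],[[4,1],[2]],[[3]]],[[[1]]]], [[[[3],
    [4]]]]] : Fin 6 → List (List (List (List (ℤ)))))

/-- certificate for the chart 5 -/
def c5 : Fin 6 → GSE.NP 5 :=
  (![[[[[[3,0,3,3,1,4],[4,2,1,3,4],[4,1,1],[3,0,1],[4,1],[4]],[[1,3,4,1,2],[1,4,4,1],[0,1,3],[1,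
    4],[3]],[[3,1,3,4],[0,2,4],[0,2],[2]],[[4,1,1],[4,3],[1]],[[1,2],[4]]],[[[2,1,0,1,1],[3,2,3,
    4],[4,2,1],[0,1]],[[4,4,1,2],[2,2],[3,1],[3]],[[1,3,4],[1,1],[2]],[[0,1],[1]]],[[[1,1,2,1],[3,
    0,4],[1,4],[1]],[[1,4,3],[1,3],[2]],[[2,4]],[[3]]],[[[4,2,1],[1,1],[1]],[[2,4]],[[1]]]],[[[[4,
    2,2,4,4],[2,3,1],[1,4,1],[0,3],[2]],[[1,1,0,3],[3,1,2],[1,4],[4]],[[2,3],[3,3],[2]],[[2],[4]],
    [[4]]],[[[4,4,3,4],[2,0,1],[4,1],[4]],[[4,1,2],[4,2],[3]],[[3,1]],[[2]]],[[[1,3,4],[4,4],[4]],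
    [[3,1]],[[4]]]]], [[[[[1,1,1,1,3],[1,0,1],[0,1],[3,3,2],[3,1]],[[3,3,1,3,4],[4,4,2],[0,4,3],
    [2],[3]],[[0,0,3],[],[3,2],[1]],[[0,1,1],[4,1],[2]],[[4,3],[3]],[[1]]],[[[1,1,2,2,4],[2,1,1,
    1],[1,1],[],[4]],[[2,3],[2,4],[],[2]],[[0,4,3],[1,2],[2]],[[2,1],[1]],[[2]]],[[[2,3,0,4],[],
    [],[3]],[[1,3,4],[4]],[[4,4],[4]],[[4]]],[[[1,3,4],[4,4],[4]],[[3,1]],[[4]]]],[[[[4,4],[1,1,4,
    4],[4,4,3],[2,4],[4]],[[1,4,2,3],[3,3,2],[1]]]]], [[[[[1,1,2,4,3,3],[3,4,4,3,3],[2,3,3,3],[2,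
    3],[1,4],[4]],[[0,0,1,1],[0,2,1,1],[0,1,4],[1,2],[3]],[[0,0,2,4],[2,2,1],[1,4],[2]],[[2,2,2],
    [2,2],[4]],[[2,1],[1]],[[2]]],[[[3,1,4,2,2],[0,2,2],[0,0,2],[3,1],[3]],[[1,1,1,4],[2,2,1],[1,
    4],[3]],[[0,2,1],[0,2],[1]],[[3,2],[1]],[[3]]],[[[4,3,2,2],[1,4,1],[3,1]],[[4,3],[2,2],[3]],
    [[0,4],[3]]],[[[3,4,2],[2,2],[2]],[[4,3]],[[2]]]],[[[[3,3],[2,2,3,3],[3,3,1],[4,3],[3]],[[2,3,
    4,1],[1,1,4],[2]]]]], [[[[[3,1,4,4,4],[1,0,4,4,3],[2,4,4,4],[3,0,3],[0,1],[4]],[[1,3,3,4],[2,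
    3,4,1],[2,1],[4,4],[4]],[[4,2,2,3],[4,4,4],[1,1],[3]],[[2,0,1],[2,3],[3]],[[4,2],[4]]],[[[4,2,
    0,1],[4,4,3,2],[3,1,1],[1,2],[4]],[[3,1,2,1],[4,2,1],[0,4],[1]],[[0,3],[1,2],[2]],[[1],[3]]],
    [[[1,2,4],[1,4,2],[],[2]]]],[[[[0,4,0,0,3],[2]]]]], [[[[[0,0,3,1,4],[3,2,3,1,2],[0,2,4,3],[2,
    3],[],[1]],[[3,1,0,4,4],[4,4,0,4],[1,2,4],[1],[2]],[[3,1,1,1],[4,2,4],[0,3],[3]],[[4,4,3],[1],
    [1]],[[1,3],[4]],[[2]]],[[[2,2,2,2,3],[2,3,3]]]]], [[[[[4,3,2,4],[3,4,2,3,4],[1,4],[1,2],[1,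
    2],[3]],[[4,0,4,4,2],[4,4,4,4],[4,3]]]]]] : Fin 6 → List (List (List (List (List (ℤ))))))

/-- the certificates -/
def c : (n : ℕ) → Fin 6 → GSE.NP n
  | 0 => c0
  | 1 => c1
  | 2 => c2
  | 3 => c3
  | 4 => c4
  | 5 => c5
  | _ + 6 => fun _ => GSE.NP.zero _

theorem smooth : P28.PSmooth (X.map (Int.castRingHom ℂ)).F := by
  refine GSE.psmooth_of_chk X 5 (by norm_num) c fun n hn => ?_
  interval_cases n <;> decide +kernel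

theorem irr : Irreducible (X.map (Int.castRingHom ℂ)).F := by
  have h : (X.map (Int.castRingHom ℂ)).F.IsHomogeneous 3 := by
    rw [← GSE.map_FZ]
    exact (GSE.hom_FZ X).map _
  exact GSE.psmooth_irr h (by norm_num) smooth

theorem nondeg : (X.map (Int.castRingHom ℂ)).NonDeg :=
  GSE.nondeg_of (by decide +kernel) (by decide +kernel) (by decide +kernel)

theorem nsq : ¬ IsSquare (X.map (Int.castRingHom ℂ)).D2 :=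
  GSE.d2_nsq X 1 (by decide +kernel)

end Pool.Agent.GSK2
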